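import Pool.Agent.QSB.StmtsS

/-!
Row CRY of squad QSB (MP_dc0713_gt): the crystallographic condition.
-/

set_option autoImplicit false

namespace Pool.Agent.QSB.H69

open Matrix Finset Pool.Agent.QSX Pool.Agent.QSB

theorem cry_num (A B t : ℝ) (n k : ℤ) (hA : 0 < A) (hB : 0 < B) (h1 : 2 * t = n * A)
    (h2 : 2 * t = k * B) (h3 : t * t < B * A) :
    (n = 0 ∧ k = 0) ∨ (0 < n ∧ 0 < k ∧ n * k ≤ 3) ∨ (n < 0 ∧ k < 0 ∧ n * k ≤ 3) := by
  have h4 : (n : ℝ) * k * (A * B) < 4 * (A * B) := by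
    have h5 : (n : ℝ) * k * (A * B) = (2 * t) * (2 * t) := by
      calc (n : ℝ) * k * (A * B) = (n * A) * (k * B) := by ring
        _ = (2 * t) * (2 * t) := by rw [← h1, ← h2]
    rw [h5]
    nlinarith
  have h6 : (n : ℝ) * k < 4 := lt_of_mul_lt_mul_right h4 (mul_pos hA hB).le
  have h7 : n * k < 4 := by exact_mod_cast h6
  have h8 : n * k ≤ 3 := by omega
  rcases lt_trichotomy t 0 with ht | ht | ht
  · have hn : (n : ℝ) < 0 := by
      by_contra hc
      have := mul_nonneg (not_lt.1 hc) hA.le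
      linarith
    have hk : (k : ℝ) < 0 := by
      by_contra hc
      have := mul_nonneg (not_lt.1 hc) hB.le
      linarith
    exact Or.inr (Or.inr ⟨by exact_mod_cast hn, by exact_mod_cast hk, h8⟩)
  · subst ht
    have hn : (n : ℝ) = 0 := by
      rcases mul_eq_zero.1 (show (n : ℝ) * A = 0 by linarith) with h | h
      · exact h
      · exact absurd h hA.ne'
    have hk : (k : ℝ) = 0 := by
      rcases mul_eq_zero.1 (show (k : ℝ) * B = 0 by linarith) with h | h
      · exact h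
      · exact absurd h hB.ne'
    exact Or.inl ⟨by exact_mod_cast hn, by exact_mod_cast hk⟩
  · have hn : (0 : ℝ) < n := by
      by_contra hc
      have := mul_nonpos_of_nonpos_of_nonneg (not_lt.1 hc) hA.le
      linarith
    have hk : (0 : ℝ) < k := by
      by_contra hc
      have := mul_nonpos_of_nonpos_of_nonneg (not_lt.1 hc) hB.le
      linarith
    exact Or.inr (Or.inl ⟨by exact_mod_cast hn, by exact_mod_cast hk, h8⟩)

theorem cry (hint : IntStmt) : CryStmt := by
  intro X S μ ν x z hx hz hμ hne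
  have hν : ν ≠ 0 := fun e => hne 0 (by rw [e, zero_smul])
  obtain ⟨⟨n, hn⟩, -⟩ := hint X S μ ν x z hx hμ hz
  obtain ⟨⟨k, hk⟩, -⟩ := hint X S ν μ z x hz hν hx
  rw [ip_comm μ ν] at hk
  exact ⟨n, k, hn, hk, cry_num _ _ _ n k (ip_self_pos hμ) (ip_self_pos hν) hn hk (ip_cs hne hμ)⟩

end Pool.Agent.QSB.H69
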